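import Mathlib

set_option autoImplicit false

namespace Pool.Agent.Results.MP_80cb54_al.AllValues
open Filter Topology Finset Classical

/-- Families of permutations of the levels of the `d`-regular rooted tree. -/
abbrev Lev (d : ℕ) : Type := ∀ n : ℕ, Equiv.Perm (Fin n → Fin d)

/-- The family preserves parents, so it is a tree automorphism. -/
def IsAut {d : ℕ} (g : Lev d) : Prop :=
  ∀ (n : ℕ) (v : Fin (n + 1) → Fin d), Fin.init (g (n + 1) v) = g n (Fin.init v)

/-- Proportion of elements of the image of `G` on level `n` that fix a vertex. -/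
noncomputable def prop {d : ℕ} (G : Subgroup (Lev d)) (n : ℕ) : ℝ :=
  (Set.ncard {s | (∃ g ∈ G, g n = s) ∧ ∃ v, s v = v} : ℝ) / Set.ncard {s | ∃ g ∈ G, g n = s}

variable {e : ℕ} (a : ℕ → Prop)

def cnd {n : ℕ} (v : Fin n → Fin (e + 2)) (j : ℕ) : Prop :=
  (∃ i : Fin n, i.1 = 2 * j ∧ v i ≠ 0) ∨ (a j ∧ ∀ i : Fin n, i.1 < 2 * j → i.1 % 2 = 0 →
    ¬ a (i.1 / 2) → v i = 0)

noncomputable def act (g : ℕ → Fin (e + 2)) {n : ℕ} (v : Fin n → Fin (e + 2)) :
    Fin n → Fin (e + 2) :=
  fun i => v i + if i.1 % 2 = 1 ∧ cnd a v (i.1 / 2) then g (i.1 / 2) else 0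

theorem act_even (g : ℕ → Fin (e + 2)) {n : ℕ} (v : Fin n → Fin (e + 2)) (i : Fin n)
    (h : i.1 % 2 = 0) : act a g v i = v i := by
  simp [act, h]

theorem cnd_act (g : ℕ → Fin (e + 2)) {n : ℕ} (v : Fin n → Fin (e + 2)) (j : ℕ) :
    cnd a (act a g v) j ↔ cnd a v j := by
  refine or_congr (exists_congr fun i => and_congr_right fun h => ?_)
    (and_congr_right fun _ => forall_congr' fun i => forall_congr' fun _ => forall_congr' fun h => ?_)
  · rw [act_even _ _ _ _ (by omega)]
  · rw [act_even _ _ _ _ h]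

theorem act_add (g h : ℕ → Fin (e + 2)) {n : ℕ} (v : Fin n → Fin (e + 2)) :
    act a (g + h) v = act a g (act a h v) := by
  ext1 i
  rw [act, act, cnd_act, act]
  split_ifs
  · rw [Pi.add_apply]; abel
  · simp

theorem act_zero {n : ℕ} (v : Fin n → Fin (e + 2)) : act a 0 v = v := by ext1 i; simp [act]

noncomputable def hom : Multiplicative (ℕ → Fin (e + 2)) →* Lev (e + 2) where
  toFun g n := ⟨act a g.toAdd, act a (-g.toAdd), fun v => by rw [← act_add, neg_add_cancel, act_zero],
    fun v => by rw [← act_add, add_neg_cancel, act_zero]⟩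
  map_one' := by ext n v : 2; exact act_zero a v
  map_mul' g h := by ext n v : 2; exact act_add a _ _ v

theorem aut (g : Multiplicative (ℕ → Fin (e + 2))) : IsAut (hom a g) := by
  intro n v
  ext1 i
  show act a g.toAdd v i.castSucc = act a g.toAdd (Fin.init v) i
  have := i.2
  have h : i.1 % 2 = 1 → (cnd a v (i.1 / 2) ↔ cnd a (Fin.init v) (i.1 / 2)) := fun h =>
    or_congr ⟨fun ⟨j, h1, h2⟩ => ⟨⟨j.1, by omega⟩, h1, h2⟩, fun ⟨j, h1, h2⟩ => ⟨j.castSucc, h1, h2⟩⟩
      (and_congr_right fun _ => ⟨fun h1 j => h1 j.castSucc,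
        fun h1 j b => h1 ⟨j.1, by omega⟩ b⟩)
  simp only [act, Fin.val_castSucc, and_congr_right h]
  rfl

def Good {m : ℕ} (g : Fin m → Fin (e + 2)) : Prop :=
  ∀ j, a j.1 → g j ≠ 0 → ∃ i < j, ¬ a i.1 ∧ g i = 0

def Tie {m : ℕ} (g : Fin m → Fin (e + 2)) : Prop := ∀ j, a j.1 ↔ g j = 0

noncomputable def ext {m : ℕ} (g : Fin m → Fin (e + 2)) : Multiplicative (ℕ → Fin (e + 2)) :=
  Multiplicative.ofAdd fun j => if h : j < m then g ⟨j, h⟩ else 0

theorem prop_eq (n : ℕ) : prop (hom (e := e) a).range n =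
    (∑ g : Fin (n / 2) → Fin (e + 2), if Good a g then 1 else 0) / (e + 2) ^ (n / 2) := by
  let F : (Fin (n / 2) → Fin (e + 2)) → Equiv.Perm (Fin n → Fin (e + 2)) := fun g => hom a (ext g) n
  have hF : ∀ g v i, F g v i = v i + if h : i.1 % 2 = 1 ∧ cnd a v (i.1 / 2) then
      g ⟨i.1 / 2, by have := i.2; omega⟩ else 0 := fun g v i => by
    show act a _ v i = _
    simp only [act, ext, toAdd_ofAdd]
    split_ifs with c1 c2
    · rfl
    · have := i.2; omega
    · rfl
  have inj : Function.Injective F := fun g h c => by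
    ext1 j
    have := j.2
    have b := congrArg (fun s => s (fun _ => 1) ⟨2 * j + 1, by omega⟩) c
    have b2 : (2 * j.1 + 1) % 2 = 1 ∧ cnd a (fun _ : Fin n => (1 : Fin (e + 2))) ((2 * j.1 + 1) / 2) :=
      ⟨by omega, Or.inl ⟨⟨2 * j, by omega⟩, by simp only; omega, one_ne_zero⟩⟩
    simp only [hF, b2, and_self, dif_pos, add_right_inj] at b
    convert b using 2 <;> exact Fin.ext (by simp only; omega)
  have h1 : {s | ∃ g ∈ (hom (e := e) a).range, g n = s} = Set.range F := by
    ext s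
    constructor
    · rintro ⟨_, ⟨g, rfl⟩, rfl⟩
      refine ⟨fun j => g.toAdd j, Equiv.ext fun v => funext fun i => (hF _ _ _).trans ?_⟩
      show _ = act a _ v i
      simp [act]
    · rintro ⟨g, rfl⟩
      exact ⟨_, ⟨_, rfl⟩, rfl⟩
  have h2 : {s | (∃ g ∈ (hom (e := e) a).range, g n = s) ∧ ∃ v, s v = v} = F '' {g | Good a g} := by
    ext s
    rw [Set.mem_ofPred_eq, show (∃ g ∈ (hom (e := e) a).range, g n = s) ↔ s ∈ Set.range F from
      Set.ext_iff.1 h1 s]
    have : ∀ g, (∃ v, F g v = v) ↔ Good a g := fun g => by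
      constructor
      · rintro ⟨v, hv⟩
        have k : ∀ j : Fin (n / 2), cnd a v j → g j = 0 := fun j c => by
          have := j.2
          have b := congrFun hv ⟨2 * j + 1, by omega⟩
          have b1 : (2 * j.1 + 1) / 2 = j := by omega
          rw [hF, dif_pos ⟨by simp only; omega, by simpa only [b1] using c⟩, add_eq_left] at b
          simpa only [b1] using b
        intro j c1 c2
        by_contra c3
        refine c2 (k j (Or.inr ⟨c1, fun i b1 b2 b3 => ?_⟩))
        by_contra b4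
        have := j.2
        exact c3 ⟨⟨i.1 / 2, by omega⟩, Fin.lt_def.2 (by simp only; omega), b3,
          k _ (Or.inl ⟨i, by simp only; omega, b4⟩)⟩
      · intro h
        refine ⟨fun i => if ∃ j : Fin (n / 2), i.1 = 2 * j ∧ g j = 0 then 1 else 0,
          funext fun i => ?_⟩
        rw [hF, add_eq_left]
        split_ifs with c
        swap
        · rfl
        have := i.2
        rcases c with ⟨c1, ⟨k, b1, b2⟩ | ⟨b1, b2⟩⟩
        · obtain ⟨j, b3, b4⟩ : ∃ j : Fin (n / 2), k.1 = 2 * j ∧ g j = 0 := by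
            by_contra c; exact b2 (if_neg c)
          convert b4 using 2
          exact Fin.ext (by simp only; omega)
        · by_contra c
          obtain ⟨j, b3, b4, b5⟩ := h _ b1 c
          have b3 : j.1 < i.1 / 2 := b3
          have := b2 ⟨2 * j, by omega⟩ (by simp only; omega) (by simp) (by simpa using b4)
          beta_reduce at this
          rw [if_pos ⟨j, rfl, b5⟩] at this
          exact one_ne_zero this
    constructor
    · rintro ⟨⟨g, rfl⟩, h⟩
      exact ⟨g, (this g).1 h, rfl⟩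
    · rintro ⟨g, h, rfl⟩
      exact ⟨⟨g, rfl⟩, (this g).2 h⟩
  rw [prop, h1, h2, Set.ncard_range_of_injective inj, Set.ncard_image_of_injective _ inj,
    Set.ncard_eq_toFinset_card']
  simp

theorem tie_snoc {m : ℕ} (g : Fin m → Fin (e + 2)) (y : Fin (e + 2)) :
    Tie a (Fin.snoc g y : Fin (m + 1) → Fin (e + 2)) ↔ Tie a g ∧ (a m ↔ y = 0) := by
  simp [Tie, Fin.forall_fin_succ']

theorem good_snoc {m : ℕ} (g : Fin m → Fin (e + 2)) (y : Fin (e + 2)) :
    Good a (Fin.snoc g y : Fin (m + 1) → Fin (e + 2)) ↔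
      Good a g ∧ ¬ (Tie a g ∧ a m ∧ y ≠ 0) := by
  have h : ∀ j : Fin (m + 1), (∃ i < j, ¬ a i.1 ∧ (Fin.snoc g y : Fin (m + 1) → Fin (e + 2)) i = 0) ↔
      ∃ i : Fin m, i.castSucc < j ∧ ¬ a i.1 ∧ g i = 0 := fun j => by
    simp [Fin.exists_fin_succ', (Fin.le_last j).not_gt]
  simp only [Good, h, Fin.forall_fin_succ', Fin.snoc_castSucc, Fin.snoc_last, Fin.val_castSucc,
    Fin.val_last, Fin.castSucc_lt_castSucc_iff, Fin.castSucc_lt_last, true_and]
  refine and_congr_right fun hg => ⟨fun h1 h2 => ?_, fun h1 h2 h3 => ?_⟩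
  · obtain ⟨i, b1, b2⟩ := h1 h2.2.1 h2.2.2
    exact b1 ((h2.1 i).2 b2)
  · by_contra c
    refine h1 ⟨fun j => ⟨fun b => ?_, fun b => ?_⟩, h2, h3⟩
    · by_contra b2
      obtain ⟨i, -, b3⟩ := hg j b b2
      exact c ⟨i, b3⟩
    · by_contra b2
      exact c ⟨j, b2, b⟩

theorem tie_good {m : ℕ} (g : Fin m → Fin (e + 2)) (h : Tie a g) : Good a g :=
  fun j b c => absurd ((h j).1 b) c

theorem sum_snoc {m : ℕ} (f : (Fin (m + 1) → Fin (e + 2)) → ℝ) :
    ∑ g, f g = ∑ g : Fin m → Fin (e + 2), ∑ y, f (Fin.snoc g y) := by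
  rw [← (Fin.snocEquiv fun _ => Fin (e + 2)).sum_comp, Fintype.sum_prod_type_right]
  rfl

theorem result (d : ℕ) (hd : 2 ≤ d) (α : ℝ) (h0 : 0 ≤ α) (h1 : α ≤ 1) :
    ∃ G : Subgroup (Lev d), (∀ g ∈ G, IsAut g) ∧ Tendsto (prop G) atTop (𝓝 α) := by
  obtain ⟨e, rfl⟩ := Nat.exists_eq_add_of_le' hd
  let q : ℝ := (e + 1) / (e + 2)
  have q0 : 1 - q ≤ q := by
    have : 1 / 2 ≤ q := by rw [le_div_iff₀ (by positivity)]; linarith [(e.cast_nonneg : (0 : ℝ) ≤ e)]
    linarith
  have q1 : q < 1 := by rw [div_lt_one (by positivity)]; linarith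
  let s : ℕ → ℝ × ℝ := fun n => Nat.rec (1, 1) (fun _ x =>
    if α ≤ x.1 - q * x.2 then (x.1 - q * x.2, (1 - q) * x.2) else (x.1, q * x.2)) n
  let a : ℕ → Prop := fun n => α ≤ (s n).1 - q * (s n).2
  have hs : ∀ n, s (n + 1) = if a n then ((s n).1 - q * (s n).2, (1 - q) * (s n).2)
    else ((s n).1, q * (s n).2) := fun _ => rfl
  have k1 : ∀ n, (s n).1 - (s n).2 ≤ α ∧ α ≤ (s n).1 ∧ 0 ≤ (s n).2 ∧ (s n).2 ≤ q ^ n := fun n => by
    induction n with
    | zero => simp [s, h0, h1]
    | succ n ih =>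
      obtain ⟨b1, b2, b3, b4⟩ := ih
      rw [hs, pow_succ']
      have := mul_le_mul_of_nonneg_left b4 (by linarith : 0 ≤ q)
      split_ifs with c
      · exact ⟨by linarith, c, mul_nonneg (by linarith) b3,
          (mul_le_mul_of_nonneg_right q0 b3).trans this⟩
      · exact ⟨(not_le.1 c).le, b2, mul_nonneg (by linarith) b3, this⟩
  have k2 : ∀ m, (∑ g : Fin m → Fin (e + 2), if Good a g then (1 : ℝ) else 0) =
      (s m).1 * (e + 2) ^ m ∧ (∑ g : Fin m → Fin (e + 2), if Tie a g then (1 : ℝ) else 0) =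
      (s m).2 * (e + 2) ^ m := fun m => by
    induction m with
    | zero => simp [s, Good, Tie]
    | succ m ih =>
      have c1 : ∑ y : Fin (e + 2), (if y = 0 then (0 : ℝ) else 1) = e + 1 := by
        simp [Fin.sum_univ_succ]
      have c2 : q * (e + 2) = e + 1 := div_mul_cancel₀ _ (by positivity)
      rw [sum_snoc, sum_snoc, hs, pow_succ]
      simp only [good_snoc, tie_snoc]
      by_cases c : a m
      · rw [if_pos c]
        constructor
        · rw [sum_congr rfl (g := fun g => (e + 2) * (if Good a g then (1 : ℝ) else 0) -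
            (e + 1) * (if Tie a g then (1 : ℝ) else 0)) fun g _ => ?_, sum_sub_distrib,
            ← mul_sum, ← mul_sum, ih.1, ih.2, ← c2]
          · ring
          · by_cases b : Tie a g
            · simp [b, c, tie_good a g b]; norm_num
            · by_cases b' : Good a g <;> simp [b, b']
        · rw [sum_congr rfl (g := fun g => if Tie a g then (1 : ℝ) else 0) fun g _ => ?_, ih.2]
          · linear_combination (s m).2 * (e + 2) ^ m * c2
          · by_cases b : Tie a g <;> simp [b, c]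
      · rw [if_neg c]
        constructor
        · rw [sum_congr rfl (g := fun g => (e + 2) * (if Good a g then (1 : ℝ) else 0))
            fun g _ => ?_, ← mul_sum, ih.1]
          · ring
          · by_cases b' : Good a g <;> simp [c, b']
        · rw [sum_congr rfl (g := fun g => (e + 1) * (if Tie a g then (1 : ℝ) else 0))
            fun g _ => ?_, ← mul_sum, ih.2, ← c2]
          · ring
          · by_cases b : Tie a g
            · simpa [b, c] using c1
            · simp [b]
  refine ⟨(hom a).range, by rintro _ ⟨g, rfl⟩; exact aut a g, ?_⟩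
  have t1 : Tendsto (fun m => (s m).1) atTop (𝓝 α) :=
    tendsto_of_tendsto_of_tendsto_of_le_of_le tendsto_const_nhds
      (by simpa using (tendsto_pow_atTop_nhds_zero_of_lt_one (by linarith) q1).const_add α)
      (fun m => (k1 m).2.1) fun m => by linarith [(k1 m).1, (k1 m).2.2.2]
  refine (t1.comp (Nat.tendsto_div_const_atTop two_ne_zero)).congr fun n => ?_
  rw [prop_eq, (k2 _).1, mul_div_cancel_right₀ _ (by positivity)]
  rfl

end Pool.Agent.Results.MP_80cb54_al.AllValues
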